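import Pool.Agent.E8helper50.SR.S

/-!
Piece FIN of project SR.
-/

set_option autoImplicit false

universe u v w

namespace Pool.Agent.E8helper51.SR

open Pool.Agent.E8helper50.SR

lemma map_wprod {R : Type v} {R' : Type w} [Mul R] [Mul R'] (φ : R → R')
    (hφ : ∀ x y, φ (x * y) = φ x * φ y) :
    ∀ (n : ℕ) (x : Fin (n + 1) → R), φ (wprod n x) = wprod n (fun i => φ (x i))
  | 0, x => rfl
  | n + 1, x => by
    have h := map_wprod φ hφ n (fun i => x i.castSucc)
    simp only [wprod, hφ, h]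

lemma map_sev {F : Type u} [Field F] {R : Type v} {R' : Type w} [NonUnitalRing R]
    [NonUnitalRing R'] [Module F R] [Module F R'] (φ : R →ₗ[F] R')
    (hφ : ∀ x y, φ (x * y) = φ x * φ y) (f : MPoly F)
    (p : Fin (f.n + 1) → ZMod 2) (a : Fin (f.n + 1) → R) :
    φ (sev f p a) = sev f p (fun i => φ (a i)) := by
  unfold sev
  rw [map_sum]
  refine Finset.sum_congr rfl ?_
  intro σ _
  rw [map_smul, map_wprod φ hφ]

lemma wev_sev {F : Type u} [Field F] {r s : ℕ} (B : SAlg F) (x : Fin r ⊕ Fin s → B) (f : MPoly F)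
    (p : Fin (f.n + 1) → ZMod 2) (a : Fin (f.n + 1) → W F r s) :
    wev B x (sev f p a) = sev f p (fun i => wev B x (a i)) := by
  unfold sev
  rw [map_sum]
  refine Finset.sum_congr rfl ?_
  intro σ _
  rw [map_smul, map_wprod (wev B x) (fun x y => map_mul _ x y)]

lemma wev_single {F : Type u} [Field F] {r s : ℕ} (B : SAlg F) (x : Fin r ⊕ Fin s → B)
    (w : FreeSemigroup (Fin r ⊕ Fin s)) :
    wev B x (MonoidAlgebra.single w 1) = FreeSemigroup.lift x w := by
  unfold wev
  simp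

lemma lift_mem {F : Type u} [Field F] {r s : ℕ} (B : SAlg F) (x : Fin r ⊕ Fin s → B)
    (hx : ∀ i, x i ∈ B.gr (gpar i)) (w : FreeSemigroup (Fin r ⊕ Fin s)) :
    FreeSemigroup.lift x w ∈ B.gr (wpar w) := by
  induction w using FreeSemigroup.recOnMul with
  | ih1 i =>
    simpa [wpar] using hx i
  | ih2 i y h1 h2 =>
    have h3 := B.mul_mem _ _ _ _ h1 h2
    rw [map_mul]
    have : wpar (FreeSemigroup.of i * y) = wpar (FreeSemigroup.of i) + wpar y := by
      unfold wpar
      rw [map_mul, toAdd_mul]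
    rw [this]
    exact h3

lemma wev_mem {F : Type u} [Field F] {r s : ℕ} (B : SAlg F) (x : Fin r ⊕ Fin s → B)
    (hx : ∀ i, x i ∈ B.gr (gpar i)) (p : ZMod 2) (m : W F r s) (hm : m ∈ Wgr F r s p) :
    wev B x m ∈ B.gr p := by
  unfold Wgr at hm
  induction hm using Submodule.span_induction with
  | mem m h =>
    obtain ⟨w, hw, rfl⟩ := h
    rw [wev_single, ← hw]
    exact lift_mem B x hx w
  | zero => rw [map_zero]; exact Submodule.zero_mem _
  | add a b _ _ ha hb => rw [map_add]; exact Submodule.add_mem _ ha hb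
  | smul c a _ ha => rw [map_smul]; exact Submodule.smul_mem _ _ ha

lemma gen_of_main {F : Type u} [Field F] (A : SAlg F) (h : Main A) :
    ∃ N : ℕ, Gen (Id A) 2 N := by
  obtain ⟨N, hN⟩ := h
  refine ⟨N, ?_⟩
  intro f
  constructor
  · intro hf
    by_contra hc
    obtain ⟨M, hM, x, hx, w, hw⟩ := hN f hc
    apply hw
    have h1 := hf (fun i => wpar (w i)) (fun i => MonoidAlgebra.single (w i) 1)
      (fun i => Submodule.subset_span ⟨w i, rfl, rfl⟩) M (fun g hg => hM g hg) x hx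
    rw [wev_sev] at h1
    simp only [wev_single] at h1
    exact h1
  · intro hf p w hw B hB x hx
    rw [wev_sev]
    exact hB f hf p _ (fun i => wev_mem B x hx _ _ (hw i))

theorem t_FIN : S_MNF.{u} → S_FIN.{u} := by
  intro h F _ A _
  obtain ⟨N, hN⟩ := gen_of_main A (h F A)
  refine ⟨⟨N, hN⟩, ?_⟩
  intro r s hr heq
  classical
  have hex : ∃ k : ℕ, ∃ q : ℕ × ℕ, Gen (Id A) q.1 q.2 ∧ q.1 ≤ 2 ∧ q.2 ≤ N ∧ q.1 + q.2 = k :=
    ⟨2 + N, (2, N), hN, le_refl _, le_refl _, rfl⟩
  obtain ⟨q, hq, h1, h2, h3⟩ := Nat.find_spec hex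
  have hmin := fun m hm => Nat.find_min (H := hex) (m := m) hm
  have hb : IsBSR (Id A) q := by
    refine ⟨hq, ?_⟩
    intro q' hne h4 h5 hg
    have hlt : q'.1 + q'.2 < Nat.find hex := by
      rw [← h3]
      by_contra hcc
      apply hne
      ext <;> omega
    exact hmin _ hlt ⟨q', hg, by omega, by omega, rfl⟩
  have hmem : q ∈ {q : ℕ × ℕ | IsBSR (Id A) q} := hb
  rw [heq] at hmem
  have : q = (r, s) := hmem
  rw [this] at h1
  simp only at h1
  omega

end Pool.Agent.E8helper51.SR
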